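import Pool.Agent.H61.AR.Targets

/-!
# Board arq_modules, row DLM: the density of a plane piece
-/

set_option autoImplicit false

open Set Function MeasureTheory Filter Topology
open scoped Manifold ContDiff Matrix
open Pool.Agent.H60.CM Pool.Agent.H61.AR

namespace Pool.Agent.H79.ARQ

lemma dot_self_nonneg (v : V3) : 0 ≤ v ⬝ᵥ v := by
  unfold dotProduct
  exact Finset.sum_nonneg fun i _ => mul_self_nonneg _

lemma dot_self_pos {v : V3} (hv : v ≠ 0) : 0 < v ⬝ᵥ v := by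
  refine lt_of_le_of_ne (dot_self_nonneg v) fun h => hv ?_
  exact dotProduct_self_eq_zero.1 h.symm

lemma isOpen_Bx (ρ : ℝ) : IsOpen (Bx ρ) := by
  have h1 : IsOpen {y : E2 | |y 0| < ρ} := isOpen_lt (by fun_prop) continuous_const
  have h2 : IsOpen {y : E2 | |y 1| < ρ} := isOpen_lt (by fun_prop) continuous_const
  exact h1.inter h2

lemma isOpen_Qi (ρ : ℝ) : IsOpen (Qi ρ) := by
  have h0 : IsOpen {y : E2 | 0 < y 0} := isOpen_lt continuous_const (by fun_prop)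
  have h1 : IsOpen {y : E2 | y 0 < ρ} := isOpen_lt (by fun_prop) continuous_const
  have h2 : IsOpen {y : E2 | |y 1| < ρ} := isOpen_lt (by fun_prop) continuous_const
  exact h0.inter (h1.inter h2)

lemma Bx_sub {ρ : ℝ} (hρ : 0 < ρ) : Bx ρ ⊆ Metric.closedBall (0 : E2) (2 * ρ) := by
  intro y hy
  rw [mem_closedBall_zero_iff, EuclideanSpace.norm_eq, Fin.sum_univ_two]
  apply Real.sqrt_le_iff.2
  refine ⟨by positivity, ?_⟩
  have h1 := hy.1
  have h2 := hy.2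
  rw [Real.norm_eq_abs, Real.norm_eq_abs]
  nlinarith [abs_nonneg (y 0), abs_nonneg (y 1)]

lemma Qi_sub {ρ : ℝ} : Qi ρ ⊆ Bx ρ := by
  intro y hy
  exact ⟨by rw [abs_of_pos hy.1]; exact hy.2.1, hy.2.2⟩

theorem pf_DLM (h1 : T_PS) : T_DLM := by
  intro L₀ L₁ η hL hη
  obtain ⟨J, hJ⟩ : ∃ J : ℝ, J = Real.sqrt ((L₀ ⨯₃ L₁) ⬝ᵥ (L₀ ⨯₃ L₁)) := ⟨_, rfl⟩
  have hJ0 : 0 < J := by
    rw [hJ]
    exact Real.sqrt_pos.2 (dot_self_pos hL)
  obtain ⟨Q, hQ⟩ : ∃ Q : E2 → ℝ, ∀ y, Q y = (y 0 • L₀ + y 1 • L₁) ⬝ᵥ (y 0 • L₀ + y 1 • L₁) :=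
    ⟨_, fun _ => rfl⟩
  have hQ0 : ∀ y, 0 ≤ Q y := fun y => by
    rw [hQ]
    exact dot_self_nonneg _
  have hQc : Continuous Q := by
    have h2 : Q = fun y => (y 0 • L₀ + y 1 • L₁) ⬝ᵥ (y 0 • L₀ + y 1 • L₁) := funext hQ
    rw [h2]
    unfold dotProduct
    fun_prop
  have hpi := Real.pi_pos
  obtain ⟨δ, hδ0, hδ1, hδ2⟩ : ∃ δ : ℝ, 0 < δ ∧ δ ≤ 1 / 2 ∧ δ ≤ η / (8 * Real.pi) :=
    ⟨min (1 / 2) (η / (8 * Real.pi)), lt_min (by norm_num) (by positivity), min_le_left _ _,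
      min_le_right _ _⟩
  have hδ3 : δ * (8 * Real.pi) ≤ η := (le_div_iff₀ (by positivity)).1 hδ2
  refine ⟨δ, hδ0, by linarith, ?_⟩
  intro ρ hρ
  obtain ⟨t1, t2⟩ := h1 L₀ L₁ ρ (1 + δ) hL hρ (by linarith)
  rw [← hJ] at t1 t2
  simp only [← hQ] at t1 t2
  -- the limits
  have key : ∀ (j : ℝ) (A : Set E2), 0 < j → j ≤ Real.pi →
      Tendsto (fun ε : ℝ => ∫ y in A, ε ^ 2 / ((1 + δ) * Q y + ε ^ 2) ^ 2) (𝓝[>] 0)
        (𝓝 (j / ((1 + δ) * J))) → ∀ᶠ ε in 𝓝[>] (0 : ℝ),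
      j - η ≤ (1 - δ) * J * ∫ y in A, ε ^ 2 / ((1 + δ) * Q y + ε ^ 2) ^ 2 := by
    intro j A hj hj1 ht
    have h2 := ht.const_mul ((1 - δ) * J)
    have h3 : (1 - δ) * J * (j / ((1 + δ) * J)) = j * ((1 - δ) / (1 + δ)) := by
      field_simp
    rw [h3] at h2
    have h4 : j - η < j * ((1 - δ) / (1 + δ)) := by
      have h5 : 1 - 2 * δ ≤ (1 - δ) / (1 + δ) := by
        rw [le_div_iff₀ (by linarith)]
        nlinarith
      have h6 : j * (1 - 2 * δ) ≤ j * ((1 - δ) / (1 + δ)) := mul_le_mul_of_nonneg_left h5 hj.le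
      have h7 : j * δ ≤ Real.pi * δ := mul_le_mul_of_nonneg_right hj1 hδ0.le
      nlinarith
    filter_upwards [h2.eventually (lt_mem_nhds h4)] with ε hε
    exact hε.le
  have k1 := key Real.pi (Bx ρ) hpi le_rfl t1
  have k2 := key (Real.pi / 2) (Qi ρ) (by linarith) (by linarith) t2
  filter_upwards [k1, k2, self_mem_nhdsWithin] with ε e1 e2 e3
  have hε : 0 < ε := e3
  intro X w A j hA hX hw hXw
  have hA1 : IsOpen A ∧ volume A ≠ ⊤ ∧
      j - η ≤ (1 - δ) * J * ∫ y in A, ε ^ 2 / ((1 + δ) * Q y + ε ^ 2) ^ 2 := by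
    have hB : volume (Bx ρ) ≠ ⊤ :=
      ((measure_mono (Bx_sub hρ)).trans_lt measure_closedBall_lt_top).ne
    rcases hA with ⟨rfl, rfl⟩ | ⟨rfl, rfl⟩
    · exact ⟨isOpen_Bx ρ, hB, e1⟩
    · exact ⟨isOpen_Qi ρ, ((measure_mono Qi_sub).trans_lt hB.lt_top).ne, e2⟩
  obtain ⟨hAo, hAf, hAj⟩ := hA1
  refine hAj.trans ?_
  rw [← integral_const_mul]
  have hε2 : 0 < ε ^ 2 := by positivity
  have hXX : ∀ y, 0 < X y ⬝ᵥ X y + ε ^ 2 := fun y => by
    have := dot_self_nonneg (X y)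
    linarith
  have hQQ : ∀ y, 0 < (1 + δ) * Q y + ε ^ 2 := fun y => by
    have := mul_nonneg (by linarith : (0 : ℝ) ≤ 1 + δ) (hQ0 y)
    linarith
  have hw0 : ∀ y ∈ A, 0 ≤ w y := fun y hy => by
    have h2 := (hXw y hy).2.1
    rw [← hJ] at h2
    have h3 : 0 ≤ (1 - δ) * J := mul_nonneg (by linarith) hJ0.le
    linarith
  refine setIntegral_mono_on ?_ ?_ hAo.measurableSet ?_
  · refine Measure.integrableOn_of_bounded (M := (1 - δ) * J * (ε ^ 2 / (ε ^ 2) ^ 2)) hAf ?_ ?_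
    · apply Continuous.aestronglyMeasurable
      refine continuous_const.mul (continuous_const.div (by fun_prop) fun y => ?_)
      exact pow_ne_zero _ (hQQ y).ne'
    · refine Eventually.of_forall fun y => ?_
      have h2 : 0 ≤ (1 - δ) * J := mul_nonneg (by linarith) hJ0.le
      have h3 := hQQ y
      rw [Real.norm_of_nonneg (by positivity)]
      refine mul_le_mul_of_nonneg_left ?_ h2
      have h4 : ε ^ 2 ≤ (1 + δ) * Q y + ε ^ 2 := by
        have := mul_nonneg (by linarith : (0 : ℝ) ≤ 1 + δ) (hQ0 y)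
        linarith
      gcongr
  · refine IntegrableOn.of_bound hAf.lt_top ?_ (ε ^ 2 * (1 / ε ^ 2) ^ 2 * (2 * J)) ?_
    · refine ContinuousOn.aestronglyMeasurable ?_ hAo.measurableSet
      refine ContinuousOn.mul (ContinuousOn.mul continuousOn_const
        (ContinuousOn.pow (ContinuousOn.div continuousOn_const ?_ fun y _ => (hXX y).ne') 2)) hw
      refine ContinuousOn.add ?_ continuousOn_const
      unfold dotProduct
      refine continuousOn_finset_sum _ fun i _ => ?_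
      have h2 : ContinuousOn (fun y => X y i) A := fun y hy =>
        (continuous_apply i).continuousAt.comp_continuousWithinAt (hX y hy)
      exact h2.mul h2
    · refine (ae_restrict_iff' hAo.measurableSet).2 (Eventually.of_forall fun y hy => ?_)
      have h2 := hXX y
      have h3 := hw0 y hy
      have h4 := (hXw y hy).2.2
      rw [← hJ] at h4
      rw [Real.norm_of_nonneg (by positivity)]
      have h5 : ε ^ 2 ≤ X y ⬝ᵥ X y + ε ^ 2 := by
        have := dot_self_nonneg (X y)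
        linarith
      gcongr
  · intro y hy
    obtain ⟨h2, h3, -⟩ := hXw y hy
    rw [← hJ] at h3
    rw [← hQ] at h2
    have h4 := hXX y
    have h5 := hQQ y
    have h6 : 0 ≤ (1 - δ) * J := mul_nonneg (by linarith) hJ0.le
    have h7 : (1 / ((1 + δ) * Q y + ε ^ 2)) ^ 2 ≤ (1 / (X y ⬝ᵥ X y + ε ^ 2)) ^ 2 := by
      gcongr
    calc (1 - δ) * J * (ε ^ 2 / ((1 + δ) * Q y + ε ^ 2) ^ 2) =
        ε ^ 2 * (1 / ((1 + δ) * Q y + ε ^ 2)) ^ 2 * ((1 - δ) * J) := by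
          rw [one_div, inv_pow]
          ring
      _ ≤ ε ^ 2 * (1 / (X y ⬝ᵥ X y + ε ^ 2)) ^ 2 * w y := by gcongr

end Pool.Agent.H79.ARQ
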